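import Pool.Agent.TH886.PrimeScales

set_option autoImplicit false

/-!
# All but boundedly many scales, at almost all PRIMES of every interval of length `x ^ θ`

The starting result `MP_31d0eb_nt.FewBadScales` (almost all INTEGERS of every interval of length
`X ^ θ` have boundedly many bad scales; positive lower bounds for the local densities only for some
positive proportion of the integers, and only if the interval is known to contain `≫ Y / log X` primes)
is proved here at almost all primes, with local densities between positive constants at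
all good scales. The proof is `Pool.Agent.TH886.PS.main` of the starting library.
-/

namespace Pool.Agent.Results.MP_31d0eb_nt.FewBadScalesAtPrimes

open Finset Filter

/-- `π(u, v - u)`: the number of primes in `(u, v]` -/
def primesIn (u v : ℕ) : ℕ := ((Finset.Ioc u v).filter Nat.Prime).card

/-- Up to `δ` the primes have a constant density `lam / log n`, with `c₁ ≤ lam ≤ c₂`, on the interval
`[n - D, n + D]`: all its subintervals `(u, v]` contain `lam (v - u) / log n` primes with an error of at
most `δ D / log n`. -/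
def ConstantDensity (c₁ c₂ δ : ℝ) (n D : ℕ) : Prop :=
  ∃ lam : ℝ, c₁ ≤ lam ∧ lam ≤ c₂ ∧ ∀ u v : ℕ, n ≤ u + D → u ≤ v → v ≤ n + D →
    |(primesIn u v : ℝ) - lam * ((v : ℝ) - u) / Real.log n| ≤ δ * D / Real.log n

open Classical in
/-- The number of the dyadic scales `D = 2 ^ j`, `log n ≤ D ≤ Y`, at which the primes do not have a
constant density around `n`, up to `δ` and with a density between `c₁` and `c₂`. -/
noncomputable def badScales (c₁ c₂ δ : ℝ) (Y n : ℕ) : ℕ :=
  ((Finset.range (Nat.log 2 Y + 1)).filter (fun j => Real.log n ≤ (2 : ℝ) ^ j ∧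
    ¬ ConstantDensity c₁ c₂ δ n (2 ^ j))).card

/-- For `0 < θ ≤ 1` and `η > 0` there are constants `c₂` and `c₁ > 0`, and for every `δ > 0` there is `K`,
such that for all large `X` and ALL `Y` with `X ^ θ ≤ Y ≤ X`: all the primes `p` of `(X, X + Y]`, with at most
`η Y / log X` exceptions, have at most `K` bad dyadic scales between `log p` and `Y`; at all the other scales
the primes around `p` have a constant density between `c₁ / log p` and `c₂ / log p`, up to `δ`. -/
theorem result (θ η : ℝ) (hθ0 : 0 < θ) (hθ1 : θ ≤ 1) (hη : 0 < η) :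
    ∃ c₁ c₂ : ℝ, 0 < c₁ ∧ ∀ δ : ℝ, 0 < δ → ∃ K : ℕ, ∀ᶠ X : ℕ in atTop, ∀ Y : ℕ,
      (X : ℝ) ^ θ ≤ Y → Y ≤ X →
        (((Finset.Ioc X (X + Y)).filter (fun p => p.Prime ∧ K < badScales c₁ c₂ δ Y p)).card : ℝ) ≤
          η * Y / Real.log X := by
  classical
  obtain ⟨c₁, c₂, hc₁, h⟩ := Pool.Agent.TH886.PS.main θ hθ0 hθ1 η hη
  refine ⟨c₁, c₂, hc₁, fun δ hδ => ?_⟩
  obtain ⟨K, hK⟩ := h δ hδ
  refine ⟨K, ?_⟩
  filter_upwards [hK] with X hX Y h1 h2
  refine le_trans (le_of_eq ?_) (hX Y h1 h2)
  congr 2

end Pool.Agent.Results.MP_31d0eb_nt.FewBadScalesAtPrimes
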