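import Pool.Agent.X20.MF.Main
import Pool.Agent.X20.MF.Sets

set_option autoImplicit false

/-!
# Primes in intervals of length `N ^ ε` and multiplicative structure

The deviation `π(n, H) log n / H - 1` of the number of the primes in `(n, n + H]` from its expected value, `N ^ ε ≤ H ≤ N`,
is orthogonal on `[1, N]`, uniformly, to ALL bounded functions `g` that satisfy `g (p m) = u p * g m`
for the primes `p` of `[N ^ η, N ^ (ε / 2)]` only (no condition at other primes, no restriction on `u`): in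
particular to all multiplicative functions with values in the unit disc. Hence the asymptotic law holds on
average on every set which is defined by the multiplicative structure
(for example `Ω(n) ≡ a (mod k)`, integers without prime factors in a given set of primes below `N ^ η`,
smooth numbers, arithmetic progressions, ...), and it is attained up to `δ`, from below and from above,
at a positive proportion of each dense set of this kind.
-/

namespace Pool.Agent.Results.MP_31d0eb_nt.MultiplicativeSets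

open Finset Filter

/-- The number `π(n, H)` of the primes in `(n, n + H]`, divided by its expected value `H / log n`. -/
noncomputable def density (H : ℝ) (n : ℕ) : ℝ :=
  (Set.ncard {p : ℕ | p.Prime ∧ n < p ∧ (p : ℝ) ≤ n + H} : ℝ) * Real.log n / H

lemma density_eq (H : ℝ) (hH : 0 ≤ H) (n : ℕ) : density H n = Pool.Agent.X20.MF.fR H n := by
  unfold density Pool.Agent.X20.MF.fR
  congr 3
  rw [← Set.ncard_coe_finset]
  congr 1
  ext p
  have h0 : (0 : ℝ) ≤ (n : ℝ) + H := by positivity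
  simp only [Set.mem_ofPred_eq, coe_filter, mem_Ioc, Nat.le_floor_iff h0]
  tauto

open Classical in
/-- For `0 < ε ≤ 1` and `0 < δ ≤ 1` there are `0 < η < ε / 2` and `c > 0` such that for all large `N` and all
`N ^ ε ≤ H ≤ N`:
(A) `|∑_{n ≤ N} g(n) (density H n - 1)| ≤ δ N` for all `g, u : ℕ → ℂ` bounded by one with `g(p m) = u(p) g(m)` for the
primes `p` in `[N ^ η, N ^ (ε / 2)]` and all `m ≥ 1` prime to `p`;
(B) for every set `E` of integers, every finite abelian group `G`, all maps `κ, v : ℕ → G` such that for these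
`p` and `m`: `p m ∈ E ↔ m ∈ E` and `κ(p m) = v(p) + κ(m)`, and every `a ∈ G`, the set
`S = {n ≤ N : n ∈ E, κ(n) = a}` satisfies `|∑_{n ∈ S} (density H n - 1)| ≤ δ N`, and if `|S| ≥ δ N` then at least `c N` elements
of `S` have `density H n ≥ 1 - δ` and at least `c N` elements of `S` have `density H n ≤ 1 + δ`. -/
theorem result (ε δ : ℝ) (hε : 0 < ε) (hε1 : ε ≤ 1) (hδ : 0 < δ) (hδ1 : δ ≤ 1) :
    ∃ η c : ℝ, 0 < η ∧ η < ε / 2 ∧ 0 < c ∧ ∀ᶠ N : ℕ in atTop, ∀ H : ℝ, (N : ℝ) ^ ε ≤ H → H ≤ N →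
      (∀ g u : ℕ → ℂ, (∀ n, ‖g n‖ ≤ 1) → (∀ n, ‖u n‖ ≤ 1) →
        (∀ p : ℕ, p.Prime → (N : ℝ) ^ η ≤ p → (p : ℝ) ≤ (N : ℝ) ^ (ε / 2) → ∀ m : ℕ, 1 ≤ m → ¬ p ∣ m →
          g (p * m) = u p * g m) →
        ‖∑ n ∈ Icc 1 N, g n * ((density H n - 1 : ℝ) : ℂ)‖ ≤ δ * N) ∧
      (∀ (G : Type) (_ : AddCommGroup G) (_ : Fintype G) (E : Set ℕ) (κ v : ℕ → G),
        (∀ p : ℕ, p.Prime → (N : ℝ) ^ η ≤ p → (p : ℝ) ≤ (N : ℝ) ^ (ε / 2) → ∀ m : ℕ, 1 ≤ m → ¬ p ∣ m →
          (p * m ∈ E ↔ m ∈ E) ∧ κ (p * m) = v p + κ m) →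
        ∀ (a : G) (S : Finset ℕ), S = (Icc 1 N).filter (fun n => n ∈ E ∧ κ n = a) →
          |∑ n ∈ S, (density H n - 1)| ≤ δ * N ∧
          (δ * N ≤ S.card →
            c * N ≤ ((S.filter (fun n => 1 - δ ≤ density H n)).card : ℝ) ∧
            c * N ≤ ((S.filter (fun n => density H n ≤ 1 + δ)).card : ℝ))) := by
  obtain ⟨d, hd⟩ : ∃ d : ℝ, d = δ ^ 2 / 2 := ⟨_, rfl⟩
  have hd0 : 0 < d := by rw [hd]; positivity
  have hdδ : d ≤ δ := by rw [hd]; nlinarith
  obtain ⟨η, hη0, hη1, N₀, hmain⟩ := Pool.Agent.X20.MF.main ε d hε hε1 hd0 (hdδ.trans hδ1)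
  obtain ⟨L, N₁, hL1, hN₁2, hbound⟩ := Pool.Agent.X20.MF.fR_bound ε hε
  refine ⟨η, δ ^ 2 / (2 * (L + 1 + δ)), hη0, hη1, by positivity, ?_⟩
  filter_upwards [eventually_ge_atTop N₀, eventually_ge_atTop N₁] with N hN hN1 H hH1 hH2
  have hN2 : (2 : ℝ) ≤ N := by exact_mod_cast hN₁2.trans hN1
  have hN0 : (0 : ℝ) < N := by linarith
  have hH0 : 0 < H := lt_of_lt_of_le (by positivity) hH1
  simp only [density_eq H hH0.le]
  have hM := hmain N hN H hH1 hH2
  refine ⟨fun g u hg hu hmul => (hM g u hg hu hmul).trans (mul_le_mul_of_nonneg_right hdδ hN0.le), ?_⟩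
  intro G _ _ E κ v hκ a S hS
  have key : |∑ n ∈ S, (Pool.Agent.X20.MF.fR H n - 1)| ≤ d * N := by
    have h1 := Pool.Agent.X20.MF.level_bound (Icc 1 N) (fun n => Pool.Agent.X20.MF.fR H n - 1) (d * N)
      (fun n => if n ∈ E then 1 else 0) κ a (by
        intro ψ
        apply hM (fun n => (if n ∈ E then 1 else 0) * ψ (κ n)) (fun p => ψ (v p))
        · intro n
          rw [norm_mul, AddChar.norm_apply, mul_one]
          split_ifs <;> simp
        · intro n
          rw [AddChar.norm_apply]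
        · intro p hp h1 h2 m hm hpm
          obtain ⟨h3, h4⟩ := hκ p hp h1 h2 m hm hpm
          simp only [h3, h4, AddChar.map_add_eq_mul]
          ring)
    have h2 : ∑ n ∈ Icc 1 N, ((if n ∈ E then (1 : ℂ) else 0) * (if κ n = a then 1 else 0)) *
        ((Pool.Agent.X20.MF.fR H n - 1 : ℝ) : ℂ) = ((∑ n ∈ S, (Pool.Agent.X20.MF.fR H n - 1) : ℝ) : ℂ) := by
      rw [hS, Complex.ofReal_sum, sum_filter]
      apply sum_congr rfl
      intro n _
      by_cases h3 : n ∈ E <;> by_cases h4 : κ n = a <;> simp [h3, h4]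
    rw [h2, Complex.norm_real, Real.norm_eq_abs] at h1
    exact h1
  refine ⟨key.trans (mul_le_mul_of_nonneg_right hdδ hN0.le), fun hSc => ?_⟩
  apply Pool.Agent.X20.MF.proportion S (fun n => Pool.Agent.X20.MF.fR H n) N δ L hN0 hδ (by linarith)
  · intro n _
    exact Pool.Agent.X20.MF.fR_nonneg hH0.le n
  · intro n hn
    rw [hS, mem_filter] at hn
    exact hbound N hN1 H hH1 n hn.1
  · exact hSc
  · rw [← hd]; exact key

end Pool.Agent.Results.MP_31d0eb_nt.MultiplicativeSets
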