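import Pool.Agent.TH646.TT.Pow4

/-!
# Primes in intervals of length `x ^ ε` on thin translates of arbitrary sets, with a power saving

The theorem `Pool.Agent.TH646.TT.pow_two_sided` of the starting library (not referenced by any starting result),
for arbitrary families of integers of nearly minimal additive energy and for polynomial values.
From Mathlib: `Polynomial ℤ`: the polynomials with integer coefficients; `f.eval m`: the value at `m`;
`(s m).toNat`: the integer `s m` (if it is not negative) as a natural number.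
-/

set_option autoImplicit false

namespace Pool.Agent.Results.MP_31d0eb_nt.ThinTranslatesPowerSaving

open Finset Filter

/-- The additive energy of order `p` of the family `s 1, ..., s x`: the number of the solutions of
`s (v 1) + ... + s (v p) = s (w 1) + ... + s (w p)` with all `v i`, `w i` in `{1, ..., x}`. -/
def energy (p x : ℕ) (s : ℕ → ℤ) : ℕ :=
  (((Fintype.piFinset fun _ : Fin p => Icc 1 x) ×ˢ (Fintype.piFinset fun _ : Fin p => Icc 1 x)).filter
    (fun q => ∑ i, s (q.1 i) = ∑ i, s (q.2 i))).card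

open Classical in
/-- The number of the `m` in `{1, ..., x}` with the property `E`. -/
noncomputable def num (x : ℕ) (E : ℕ → Prop) : ℝ := (((Icc 1 x).filter E).card : ℝ)

/-- The number of the primes in `(n, n + y]`. -/
def primesIn (n y : ℕ) : ℕ := ((Ioc n (n + y)).filter Nat.Prime).card

open Classical in
/-- The translate `A + b` has good points, up to constants:

* for all integers `y` with `N ^ ε ≤ y ≤ N` the average of `primesIn (a + b) y` over the `a ∈ A` lies between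
  `c y / log N` and `5 y / log N`, and at least `c |A|` elements `a` of `A` have at least `c y / log N` primes in
  `(a + b, a + b + y]`;
* at least `c |A|` elements `a` of `A` have a prime in the interval `(x - x ^ ε, x)`, `x = a + b`. -/
noncomputable def Good (c ε : ℝ) (N : ℕ) (A : Finset ℕ) (b : ℕ) : Prop :=
  (∀ y : ℕ, (N : ℝ) ^ ε ≤ y → y ≤ N →
    c * (A.card * y) ≤ (∑ a ∈ A, (primesIn (a + b) y : ℝ)) * Real.log N ∧
    (∑ a ∈ A, (primesIn (a + b) y : ℝ)) * Real.log N ≤ 5 * (A.card * y) ∧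
    c * A.card ≤ ((A.filter fun a => c * y ≤ (primesIn (a + b) y : ℝ) * Real.log N).card : ℝ)) ∧
  c * A.card ≤ ((A.filter fun a => ∃ q : ℕ, q.Prime ∧
    ((a + b : ℕ) : ℝ) - ((a + b : ℕ) : ℝ) ^ ε < q ∧ q < a + b).card : ℝ)

lemma num_le {x : ℕ} {E : ℕ → Prop} {V : ℝ} (h : ∀ S : Finset ℕ, S ⊆ Icc 1 x → (∀ m ∈ S, E m) → (S.card : ℝ) ≤ V) :
    num x E ≤ V := by
  classical
  unfold num
  apply h _ (filter_subset _ _)
  intro m hm
  rw [mem_filter] at hm
  exact hm.2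

/-- There is an absolute constant `c > 0` such that for all `0 < ε < 1` and all `B`:

* For every `p` there is `κ > 0` such that for all large `N` the following holds. Let `s 1, ..., s x` be an
  arbitrary family of integers in `[-B N, B N]` with an additive energy of order `p` of at most `N ^ κ` times the
  minimal possible size `x ^ (2 p) / N`, and let `A` be an arbitrary set of at least `N ^ (1 - κ)` integers in
  `[1, N]`. Then all the members `b = s m` of the family in `[N ^ (1 / 2), N]`, with at most `x N ^ (-κ)` exceptions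
  `m ≤ x`, are such that the translate `A + b` is `Good`.
* In particular for every nonconstant polynomial `f` of degree `d` with integer coefficients there is `κ > 0`
  such that this holds for the members `b = t + f m`, `m ≤ x`, whenever `N ^ (1 - κ) ≤ x ^ d ≤ B N`, `|t| ≤ B N`. -/
theorem result : ∃ c : ℝ, 0 < c ∧ c ≤ 1 ∧ ∀ ε : ℝ, 0 < ε → ε < 1 → ∀ B : ℕ,
    (∀ p : ℕ, ∃ κ : ℝ, 0 < κ ∧ ∀ᶠ N : ℕ in atTop, ∀ (x : ℕ) (s : ℕ → ℤ), (∀ m ∈ Icc 1 x, |s m| ≤ B * N) →
      (energy p x s : ℝ) * N ≤ (N : ℝ) ^ κ * (x : ℝ) ^ (2 * p) →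
      ∀ A : Finset ℕ, A ⊆ Icc 1 N → (N : ℝ) ^ (1 - κ) ≤ A.card →
        num x (fun m => (N : ℝ) ^ (1 / 2 : ℝ) ≤ s m ∧ s m ≤ N ∧ ¬ Good c ε N A (s m).toNat) ≤
          x * (N : ℝ) ^ (-κ)) ∧
    (∀ f : Polynomial ℤ, 1 ≤ f.natDegree → ∃ κ : ℝ, 0 < κ ∧ ∀ᶠ N : ℕ in atTop, ∀ x : ℕ,
      x ^ f.natDegree ≤ B * N → (N : ℝ) ^ (1 - κ) ≤ (x : ℝ) ^ f.natDegree → ∀ t : ℤ, |t| ≤ B * N →
      ∀ A : Finset ℕ, A ⊆ Icc 1 N → (N : ℝ) ^ (1 - κ) ≤ A.card →
        num x (fun m => (N : ℝ) ^ (1 / 2 : ℝ) ≤ ((t + f.eval (m : ℤ) : ℤ) : ℝ) ∧ t + f.eval (m : ℤ) ≤ N ∧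
          ¬ Good c ε N A (t + f.eval (m : ℤ)).toNat) ≤ x * (N : ℝ) ^ (-κ)) := by
  classical
  obtain ⟨c, hc0, hc1, hmain⟩ := Pool.Agent.TH646.TT.pow_two_sided
  have general : ∀ ε : ℝ, 0 < ε → ε < 1 → ∀ B p : ℕ, ∃ κ : ℝ, 0 < κ ∧ ∀ᶠ N : ℕ in atTop,
      ∀ (x : ℕ) (s : ℕ → ℤ), (∀ m ∈ Icc 1 x, |s m| ≤ B * N) →
      (energy p x s : ℝ) * N ≤ (N : ℝ) ^ κ * (x : ℝ) ^ (2 * p) →
      ∀ A : Finset ℕ, A ⊆ Icc 1 N → (N : ℝ) ^ (1 - κ) ≤ A.card →
        num x (fun m => (N : ℝ) ^ (1 / 2 : ℝ) ≤ s m ∧ s m ≤ N ∧ ¬ Good c ε N A (s m).toNat) ≤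
          x * (N : ℝ) ^ (-κ) := by
    intro ε hε hε1 B p
    obtain ⟨κ, hκ, hev⟩ := hmain ε hε hε1 p B
    refine ⟨κ, hκ, ?_⟩
    filter_upwards [hev] with N h x s hs hE A hA hAN
    refine num_le fun S hS1 hS2 => h x s hs hE A hA hAN S hS1 ?_
    intro m hm
    obtain ⟨h4, h5, h6⟩ := hS2 m hm
    refine ⟨h4, h5, fun h7 => h6 ?_⟩
    exact ⟨h7.1, h7.2⟩
  refine ⟨c, hc0, hc1, fun ε hε hε1 B => ⟨fun p => general ε hε hε1 B p, fun f hd => ?_⟩⟩
  obtain ⟨p, B', hB', hpoly⟩ := Pool.Agent.TH646.TT.poly_family_pow f hd B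
  obtain ⟨κ, hκ, hev⟩ := general ε hε hε1 B' p
  refine ⟨κ / 2, by positivity, ?_⟩
  filter_upwards [hev, hpoly κ hκ, eventually_ge_atTop 1] with N h1 h2 hN1 x hx1 hx2 t ht A hA hAN
  have hNr : (1 : ℝ) ≤ N := by exact_mod_cast hN1
  obtain ⟨h3, h4⟩ := h2 x hx1 hx2 t ht
  have hA2 : (N : ℝ) ^ (1 - κ) ≤ (A.card : ℝ) :=
    (Real.rpow_le_rpow_of_exponent_le hNr (by linarith)).trans hAN
  refine (h1 x (fun m => t + f.eval (m : ℤ)) h3 h4 A hA hA2).trans ?_
  apply mul_le_mul_of_nonneg_left _ (Nat.cast_nonneg _)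
  exact Real.rpow_le_rpow_of_exponent_le hNr (by linarith)

end Pool.Agent.Results.MP_31d0eb_nt.ThinTranslatesPowerSaving
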