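import Pool.Agent.Y851.PT.P9

/-!
# Primes in windows of length `H` below products `a c`

Let `0 < θ`, `λ log X ≤ H ≤ X ^ (1 - ρ)`, let `A` be a set of positive integers up to `X ^ θ` which contains
a positive proportion of the integers, or of the primes, up to `X ^ θ`, and let `C` be any finite set of
reals in `(0, X ^ (1 - θ)]` which is spread at the scale `H / X ^ θ`. Then the windows `(a c - H, a c)`
contain `(1 + O(δ)) H / log (a c)` primes on average over `a ∈ A` for almost all `c ∈ C`, and on average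
over `c ∈ C` for almost all `a ∈ A`; for almost all `n`-tuples `(c_1, …, c_n)` a positive proportion of
the `a ∈ A` has primes in all `n` windows `(a c_j - H, a c_j)` at once; and if `n ≥ n₀`, where `n₀` does
not depend on `X, H, A, C`, then for almost all `n`-tuples almost all `a ∈ A` have a prime in at least
one of the `n` windows; the same with `A` and `C` exchanged.
-/

set_option autoImplicit false

namespace Pool.Agent.Results.MP_31d0eb_nt.WindowsAtProducts

open Finset

/-- the number of primes in the open interval `(x - H, x)`, divided by its expected value `H / log x` -/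
noncomputable def density (H x : ℝ) : ℝ :=
  (Set.ncard {p : ℕ | p.Prime ∧ x - H < p ∧ (p : ℝ) < x} : ℝ) * Real.log x / H

/-- the open interval `(x - H, x)` contains a prime -/
def HasPrime (H x : ℝ) : Prop := ∃ p : ℕ, p.Prime ∧ x - H < p ∧ (p : ℝ) < x

/-- `A` consists of positive integers up to `X ^ θ` and contains a proportion at least `δ` of the
integers, or (a set of primes) of the primes, up to `X ^ θ` -/
def Dense (δ θ X : ℝ) (A : Finset ℕ) : Prop :=
  (∀ a ∈ A, 1 ≤ a ∧ (a : ℝ) ≤ X ^ θ) ∧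
    (δ * X ^ θ ≤ A.card ∨ ((∀ a ∈ A, a.Prime) ∧ δ * (X ^ θ / Real.log X) ≤ A.card))

/-- `C ⊆ (0, X ^ (1 - θ)]`, and each interval of length `H / X ^ θ` (a proportion `H / X` of
`(0, X ^ (1 - θ)]`) contains at most a proportion `B H / X` of the elements of `C` -/
def Spread (B θ X H : ℝ) (C : Finset ℝ) : Prop :=
  (∀ c ∈ C, 0 < c ∧ c ≤ X ^ (1 - θ)) ∧
    ∀ u : ℝ, ((C.filter (fun c => u ≤ c ∧ c ≤ u + H / X ^ θ)).card : ℝ) ≤ B * (H / X) * C.card

open Classical in
theorem result (θ lam ρ δ B : ℝ) (hθ : 0 < θ) (hlam : 0 < lam) (hρ : 0 < ρ) (hδ : 0 < δ) (hB : 1 ≤ B) :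
    ∃ n₀ : ℕ, ∀ n : ℕ, 1 ≤ n → ∃ (κ X₀ : ℝ), 0 < κ ∧ ∀ X : ℝ, X₀ ≤ X →
    ∀ H : ℝ, lam * Real.log X ≤ H → H ≤ X ^ (1 - ρ) →
    ∀ (A : Finset ℕ) (C : Finset ℝ), Dense δ θ X A → Spread B θ X H C →
    -- averages over `A`, for all `c ∈ C` but a proportion `δ`
    ((C.filter (fun c => δ * A.card < |∑ a ∈ A, density H (a * c) - A.card|)).card : ℝ) ≤ δ * C.card ∧
    -- averages over `C`, for all `a ∈ A` but a proportion `δ`
    ((A.filter (fun a : ℕ => δ * C.card < |∑ c ∈ C, density H (a * c) - C.card|)).card : ℝ) ≤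
      δ * A.card ∧
    -- primes in `n` windows at once, for all `n`-tuples but a proportion `δ`
    (((Fintype.piFinset (fun _ : Fin n => C)).filter (fun y => ¬
      (κ * A.card ≤ ((A.filter (fun a : ℕ => ∀ j, HasPrime H (a * y j))).card : ℝ)))).card : ℝ) ≤
        δ * (C.card : ℝ) ^ n ∧
    (((Fintype.piFinset (fun _ : Fin n => A)).filter (fun y => ¬
      (κ * C.card ≤ ((C.filter (fun c => ∀ j, HasPrime H (y j * c))).card : ℝ)))).card : ℝ) ≤
        δ * (A.card : ℝ) ^ n ∧
    -- a prime in one of `n` windows, almost always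
    (n₀ ≤ n →
      (((Fintype.piFinset (fun _ : Fin n => C)).filter (fun y => ¬
        ((1 - δ) * A.card ≤ ((A.filter (fun a : ℕ => ∃ j, HasPrime H (a * y j))).card : ℝ)))).card : ℝ)
          ≤ δ * (C.card : ℝ) ^ n ∧
      (((Fintype.piFinset (fun _ : Fin n => A)).filter (fun y => ¬
        ((1 - δ) * C.card ≤ ((C.filter (fun c => ∃ j, HasPrime H (y j * c))).card : ℝ)))).card : ℝ)
          ≤ δ * (A.card : ℝ) ^ n) := by
  obtain ⟨n₀, h⟩ := Pool.Agent.Y851.PT.productsH θ lam ρ δ B hθ hlam hρ hδ hB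
  refine ⟨n₀, fun n hn => ?_⟩
  obtain ⟨κ, hκ, h⟩ := h n hn
  obtain ⟨X₀, hX₀⟩ := Filter.eventually_atTop.1 h
  refine ⟨κ, X₀, hκ, fun X hX H hH1 hH2 A C hA hC => ?_⟩
  have hC' : Pool.Agent.Y851.PT.SpH B H θ X C :=
    ⟨fun c hc => (hC.1 c hc).1, fun c hc => (hC.1 c hc).2, fun u => hC.2 u⟩
  exact hX₀ X hX H hH1 hH2 A C hA hC'

end Pool.Agent.Results.MP_31d0eb_nt.WindowsAtProducts
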